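import Mathlib

/-!
# Perfect images of weakly θ-refinable spaces are weakly θ-refinable

No separation axioms are used.

Let `f : X → Y` be perfect, `𝒰` an open cover of `Y` and `𝒱 0, 𝒱 1, …` families of open sets of `X`
as in the definition of weak θ-refinability for the cover `f⁻¹(𝒰)`. Let `O i` (`O' i`), where `i`
codes the pair `(n, k)`, be the open set of the points which are in at least `k + 1` (in at least
`k + 2`) members of `𝒱 n`. The word `w x` of a point `x` is `2` at `i` if `x ∈ O' i`, it is `1` if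
`x ∈ O i \ O' i` and it is `0` if `x ∉ O i`. Let `t x` be the initial segment of the word that ends
with the first `1`. The set `OO c` of the points `z` whose word is pointwise above the finite
word `c` is open, and if `z ∈ OO c` for some `c = t x`, then `c ≤ t z` in the lexicographic order.

For `y` in `Y` cover the fibre of `y` by finitely many sets `V x` (`x` in the fibre), where
`V x` is the intersection of `OO (t x)` and the members of `𝒱 n` containing `x`, `n` belonging to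
the last letter of `t x`. Let `s y` be the finite set of the words `t x` used and `a = min (s y)`.
If `y'` is close to `y` and `s y' = s y`, then the part of the fibre of `y'` with word `a` is
covered by the finitely many sets `V x` with `t x = a`. So the subspace of the `y` with a given
`s y` has a locally finite partition that refines `𝒰`, and this is enough.
-/

set_option autoImplicit false

open Set Topology

namespace Pool.Agent.V7H73.Withdrawn.PerfectImage

universe u v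

/-- `X` is weakly θ-refinable: each open cover `𝒰` has an open refinement `⋃ n, 𝒱 n` such that for
each point `x` there is `n` for which `x` is in at least one and in only finitely many members of
`𝒱 n`. -/
def WTheta (X : Type u) [TopologicalSpace X] : Prop :=
  ∀ 𝒰 : Set (Set X), (∀ U ∈ 𝒰, IsOpen U) → ⋃₀ 𝒰 = univ →
    ∃ 𝒱 : ℕ → Set (Set X), (∀ n, ∀ V ∈ 𝒱 n, IsOpen V ∧ ∃ U ∈ 𝒰, V ⊆ U) ∧
      ∀ x, ∃ n, {V ∈ 𝒱 n | x ∈ V}.Nonempty ∧ {V ∈ 𝒱 n | x ∈ V}.Finite

/-- A subspace `S` with a labelling such that each point of `S` has a neighbourhood with only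
finitely many labels of points of `S`, and each class is contained in a member of `𝒰`. -/
theorem locally_finite_partition {Y : Type v} [TopologicalSpace Y] {α : Type*} (𝒰 : Set (Set Y))
    (h𝒰 : ∀ U ∈ 𝒰, IsOpen U) (S : Set Y) (ℓ : Y → α)
    (hG : ∀ y ∈ S, ∃ G : Set Y, IsOpen G ∧ y ∈ G ∧ (ℓ '' (G ∩ S)).Finite)
    (hU : ∀ y ∈ S, ∃ U ∈ 𝒰, ∀ y' ∈ S, ℓ y' = ℓ y → y' ∈ U) :
    ∃ 𝒲 : ℕ → Set (Set Y), (∀ n, ∀ W ∈ 𝒲 n, IsOpen W ∧ ∃ U ∈ 𝒰, W ⊆ U) ∧
      ∀ y ∈ S, ∃ n, {W ∈ 𝒲 n | y ∈ W}.Nonempty ∧ {W ∈ 𝒲 n | y ∈ W}.Finite := by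
  classical
  rcases isEmpty_or_nonempty Y with hY | hY
  · exact ⟨fun _ => ∅, fun _ _ h => absurd h (notMem_empty _), fun y _ => (hY.false y).elim⟩
  -- the labels of the classes with `z` in the closure
  let A : Y → Set α := fun z => {b | z ∈ closure (S ∩ ℓ ⁻¹' {b})}
  have hA : ∀ z ∈ S, ∀ G : Set Y, IsOpen G → z ∈ G → A z ⊆ ℓ '' (G ∩ S) := by
    intro z _ G hGo hzG b hb
    obtain ⟨w, hw1, hw2, hw3⟩ := mem_closure_iff.1 hb G hGo hzG
    exact ⟨w, ⟨hw1, hw2⟩, hw3⟩
  have hfin : ∀ z ∈ S, (A z).Finite := by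
    intro z hz
    obtain ⟨G, hGo, hzG, hf⟩ := hG z hz
    exact hf.subset (hA z hz G hGo hzG)
  have hWex : ∀ z ∈ S, ∃ W : Set Y, IsOpen W ∧ z ∈ W ∧ ℓ '' (W ∩ S) ⊆ A z := by
    intro z hz
    obtain ⟨G, hGo, hzG, hf⟩ := hG z hz
    refine ⟨G \ ⋃ b ∈ (ℓ '' (G ∩ S)) \ A z, closure (S ∩ ℓ ⁻¹' {b}), ?_, ⟨hzG, ?_⟩, ?_⟩
    · exact hGo.sdiff ((hf.subset sdiff_subset).isClosed_biUnion fun b _ => isClosed_closure)
    · intro h
      obtain ⟨b, hb, hzb⟩ := mem_iUnion₂.1 h
      exact hb.2 hzb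
    · rintro b ⟨w, ⟨⟨hwG, hwn⟩, hwS⟩, rfl⟩
      by_contra hb
      apply hwn
      exact mem_iUnion₂.2 ⟨ℓ w, ⟨⟨w, ⟨hwG, hwS⟩, rfl⟩, hb⟩, subset_closure ⟨hwS, rfl⟩⟩
  choose! W hWo hWz hWA using hWex
  have hAW : ∀ z ∈ S, ∀ z' ∈ S, z ∈ W z' → A z ⊆ A z' := fun z hz z' hz' h =>
    (hA z hz (W z') (hWo z' hz') h).trans (hWA z' hz')
  have hself : ∀ z ∈ S, ℓ z ∈ A z := fun z hz => subset_closure ⟨hz, rfl⟩
  choose! U hU1 hU2 using hU
  -- representatives of the classes
  have hr : ∀ b, (∃ z ∈ S, ℓ z = b) → ∃ r, r ∈ S ∧ ℓ r = b := fun b h => h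
  choose! r hr using hr
  -- the open sets
  let Q : Set α → α → Set Y := fun B b =>
    (⋃ z ∈ {z | z ∈ S ∧ A z = B ∧ ℓ z = b}, W z) ∩ U (r b)
  have hQ : ∀ z ∈ S, z ∈ Q (A z) (ℓ z) := by
    intro z hz
    obtain ⟨h1, h2⟩ := hr (ℓ z) ⟨z, hz, rfl⟩
    exact ⟨mem_iUnion₂.2 ⟨z, ⟨hz, rfl, rfl⟩, hWz z hz⟩, hU2 _ h1 z hz h2.symm⟩
  refine ⟨fun k => {V | ∃ z ∈ S, (A z).ncard = k ∧ V = Q (A z) (ℓ z)}, ?_, ?_⟩
  · rintro n _ ⟨z, hz, -, rfl⟩
    obtain ⟨h1, h2⟩ := hr (ℓ z) ⟨z, hz, rfl⟩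
    refine ⟨(isOpen_biUnion fun w hw => hWo w hw.1).inter (h𝒰 _ (hU1 _ h1)), _, hU1 _ h1,
      inter_subset_right⟩
  · intro y hy
    refine ⟨(A y).ncard, ⟨_, ⟨y, hy, rfl, rfl⟩, hQ y hy⟩, ?_⟩
    refine ((hfin y hy).image fun b => Q (A y) b).subset ?_
    rintro _ ⟨⟨z, hz, hk, rfl⟩, hyQ⟩
    obtain ⟨w, ⟨hwS, hwA, hwl⟩, hyw⟩ := mem_iUnion₂.1 hyQ.1
    have h1 : A y ⊆ A z := hwA ▸ hAW y hy w hwS hyw
    have h2 : A y = A z := eq_of_subset_of_ncard_le h1 hk.le (hfin z hz)
    rw [h2]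
    exact ⟨ℓ z, hself z hz, rfl⟩

/-- The points in at least `m` members of a family of open sets form an open set. -/
theorem isOpen_ge {X : Type u} [TopologicalSpace X] (𝒱 : Set (Set X)) (h𝒱 : ∀ V ∈ 𝒱, IsOpen V)
    (m : ℕ) : IsOpen {x | (m : ℕ∞) ≤ {V ∈ 𝒱 | x ∈ V}.encard} := by
  rw [isOpen_iff_forall_mem_open]
  intro x hx
  obtain ⟨A, hA, hAm⟩ := exists_subset_encard_eq hx
  have hAf : A.Finite := finite_of_encard_eq_coe hAm
  refine ⟨⋂₀ A, ?_, hAf.isOpen_sInter (fun V hV => h𝒱 V (hA hV).1), fun V hV => (hA hV).2⟩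
  intro z hz
  have : A ⊆ {V ∈ 𝒱 | z ∈ V} := fun V hV => ⟨(hA hV).1, hz V hV⟩
  exact hAm ▸ encard_le_encard this

section words

variable {X : Type u} (w : X → ℕ → ℕ)

/-- The order on finite words: lexicographic order of the words continued by `0`. -/
def g (c : List ℕ) : Lex (ℕ → ℕ) := toLex fun i => c.getD i 0

open Classical in
/-- The initial segment of the word of `x` that ends with the first letter `1`. -/
noncomputable def t (j : X → ℕ) (x : X) : List ℕ := (List.range (j x + 1)).map (w x)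

theorem t_length (j : X → ℕ) (x : X) : (t w j x).length = j x + 1 := by simp [t]

theorem t_getD (j : X → ℕ) (x : X) (i : ℕ) (hi : i ≤ j x) : (t w j x).getD i 0 = w x i := by
  have : i < j x + 1 := Nat.lt_succ_of_le hi
  simp [t, List.getD_eq_getElem?_getD, this]

/-- The points whose word is pointwise above the finite word `c`. -/
def OO (c : List ℕ) : Set X := {z | ∀ i < c.length, c.getD i 0 ≤ w z i}

theorem key (j : X → ℕ) (hj1 : ∀ x, w x (j x) = 1) (hj2 : ∀ x, ∀ i < j x, w x i ≠ 1) (x z : X)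
    (h : z ∈ OO w (t w j x)) : t w j x = t w j z ∨ g (t w j x) < g (t w j z) := by
  have h' : ∀ i ≤ j x, w x i ≤ w z i := by
    intro i hi
    have := h i (by rw [t_length]; omega)
    rwa [t_getD w j x i hi] at this
  by_cases heq : ∀ i ≤ j x, w x i = w z i
  · left
    have h1 : j z = j x := by
      rcases lt_trichotomy (j z) (j x) with hlt | he | hgt
      · exact absurd (heq _ hlt.le ▸ hj1 z : w x (j z) = 1) (hj2 x _ hlt)
      · exact he
      · exact absurd ((heq _ le_rfl).symm.trans (hj1 x)) (hj2 z _ hgt)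
    unfold t
    rw [h1]
    apply List.map_congr_left
    intro i hi
    exact heq i (by simpa [Nat.lt_succ_iff] using hi)
  · right
    push Not at heq
    classical
    have hp := Nat.find_spec heq
    have hpm := fun i (hi : i < Nat.find heq) => Nat.find_min heq hi
    generalize Nat.find heq = p at hp hpm
    have hpj : ∀ i < p, w x i = w z i := by
      intro i hi
      by_contra hne
      exact hpm i hi ⟨by omega, hne⟩
    have hpz : p ≤ j z := by
      by_contra hlt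
      push Not at hlt
      have h1 := hpj (j z) hlt
      rw [hj1 z] at h1
      exact hj2 x (j z) (by omega) h1
    refine ⟨p, ?_, ?_⟩
    · intro i hi
      change (t w j x).getD i 0 = (t w j z).getD i 0
      rw [t_getD w j x i (by omega), t_getD w j z i (by omega)]
      exact hpj i hi
    · change (t w j x).getD p 0 < (t w j z).getD p 0
      rw [t_getD w j x p hp.1, t_getD w j z p hpz]
      exact lt_of_le_of_ne (h' p hp.1) hp.2

end words

/-- **Perfect images of weakly θ-refinable spaces are weakly θ-refinable.** -/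
theorem result (X : Type u) (Y : Type v) [TopologicalSpace X] [TopologicalSpace Y] (f : X → Y)
    (hf : Continuous f) (hs : Function.Surjective f) (hc : IsClosedMap f)
    (hk : ∀ y, IsCompact (f ⁻¹' {y})) (hX : WTheta X) : WTheta Y := by
  classical
  intro 𝒰 h𝒰 hcov
  obtain ⟨𝒱, h𝒱, h𝒱x⟩ := hX ((fun U => f ⁻¹' U) '' 𝒰)
    (by rintro _ ⟨U, hU, rfl⟩; exact (h𝒰 U hU).preimage hf)
    (by
      apply eq_univ_of_forall
      intro x
      obtain ⟨U, hU, hxU⟩ := mem_sUnion.1 (hcov ▸ mem_univ (f x) : f x ∈ ⋃₀ 𝒰)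
      exact ⟨_, ⟨U, hU, rfl⟩, hxU⟩)
  -- the members of the `n`-th family that contain `x`, and the words
  let E : ℕ → X → Set (Set X) := fun n x => {V ∈ 𝒱 n | x ∈ V}
  let w : X → ℕ → ℕ := fun x i =>
    if (((Nat.unpair i).2 + 2 : ℕ) : ℕ∞) ≤ (E (Nat.unpair i).1 x).encard then 2
    else if (((Nat.unpair i).2 + 1 : ℕ) : ℕ∞) ≤ (E (Nat.unpair i).1 x).encard then 1 else 0
  have hw2 : ∀ x i, 2 ≤ w x i ↔ (((Nat.unpair i).2 + 2 : ℕ) : ℕ∞) ≤ (E (Nat.unpair i).1 x).encard := by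
    intro x i
    simp only [w]
    split_ifs <;> simp_all
  have hw1 : ∀ x i, 1 ≤ w x i ↔ (((Nat.unpair i).2 + 1 : ℕ) : ℕ∞) ≤ (E (Nat.unpair i).1 x).encard := by
    intro x i
    simp only [w]
    split_ifs with h1 h2
    · simp only [Nat.one_le_ofNat, true_iff]
      refine le_trans ?_ h1
      exact_mod_cast Nat.le_succ _
    · exact iff_of_true le_rfl h2
    · exact iff_of_false (by omega) h2
  have hw3 : ∀ x i, w x i ≤ 2 := by
    intro x i
    simp only [w]
    split_ifs <;> simp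
  have hweq : ∀ x i, w x i = 1 ↔ (E (Nat.unpair i).1 x).encard = (((Nat.unpair i).2 + 1 : ℕ) : ℕ∞) := by
    intro x i
    have h1 := hw1 x i
    have h2 := hw2 x i
    constructor
    · intro h
      apply le_antisymm
      · have h3 : ¬ (2 ≤ w x i) := by omega
        rw [h2, not_le] at h3
        have : (((Nat.unpair i).2 + 2 : ℕ) : ℕ∞) = (((Nat.unpair i).2 + 1 : ℕ) : ℕ∞) + 1 := by
          push_cast; ring
        rw [this] at h3
        exact Order.le_of_lt_add_one h3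
      · exact h1.1 (by omega)
    · intro h
      have h4 : 1 ≤ w x i := h1.2 h.ge
      have h5 : ¬ (2 ≤ w x i) := by
        rw [h2, h, not_le]
        exact_mod_cast Nat.lt_succ_self _
      omega
  have hopen : ∀ i m, IsOpen {z | m ≤ w z i} := by
    intro i m
    rcases Nat.lt_or_ge m 1 with h | h
    · obtain rfl : m = 0 := by omega
      simp
    rcases Nat.lt_or_ge m 2 with h' | h'
    · obtain rfl : m = 1 := by omega
      simp only [hw1]
      exact isOpen_ge _ (fun V hV => (h𝒱 _ V hV).1) _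
    rcases Nat.lt_or_ge m 3 with h'' | h''
    · obtain rfl : m = 2 := by omega
      simp only [hw2]
      exact isOpen_ge _ (fun V hV => (h𝒱 _ V hV).1) _
    · convert isOpen_empty using 1
      ext z
      exact iff_of_false (not_le.2 (lt_of_le_of_lt (hw3 z i) h'')) (notMem_empty z)
  have hex : ∀ x, ∃ i, w x i = 1 := by
    intro x
    obtain ⟨n, hne, hfin⟩ := h𝒱x x
    obtain ⟨m, hm⟩ : ∃ m : ℕ, (E n x).encard = m := ⟨_, hfin.encard_eq_coe_toFinset_card⟩
    have hm0 : m ≠ 0 := by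
      rintro rfl
      exact hne.ne_empty (encard_eq_zero.1 (hm.trans Nat.cast_zero))
    refine ⟨Nat.pair n (m - 1), (hweq _ _).2 ?_⟩
    simp only [Nat.unpair_pair]
    rw [hm, Nat.sub_add_cancel (Nat.one_le_iff_ne_zero.2 hm0)]
  let j : X → ℕ := fun x => Nat.find (hex x)
  have hj1 : ∀ x, w x (j x) = 1 := fun x => Nat.find_spec (hex x)
  have hj2 : ∀ x, ∀ i < j x, w x i ≠ 1 := fun x i hi => Nat.find_min (hex x) hi
  have hOO : ∀ c : List ℕ, IsOpen (OO w c) := by
    intro c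
    have : OO w c = ⋂ i ∈ Iio c.length, {z | c.getD i 0 ≤ w z i} := by
      ext z
      simp [OO]
    rw [this]
    exact (finite_Iio c.length).isOpen_biInter fun i _ => hopen i _
  -- the labels
  let L : X → Set (Set X) := fun x => E (Nat.unpair (j x)).1 x
  have hLcard : ∀ x, (L x).encard = (((Nat.unpair (j x)).2 + 1 : ℕ) : ℕ∞) := fun x =>
    (hweq x (j x)).1 (hj1 x)
  have hLfin : ∀ x, (L x).Finite := fun x => finite_of_encard_eq_coe (hLcard x)
  have hLne : ∀ x, (L x).Nonempty := by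
    intro x
    rw [← encard_ne_zero, hLcard]
    simp
  have hLeq : ∀ x z, t w j x = t w j z → z ∈ ⋂₀ L x → L z = L x := by
    intro x z htxz hz
    have hjj : j x = j z := by
      have := congrArg List.length htxz
      simpa [t_length] using this
    have hsub : L x ⊆ L z := by
      intro V hV
      refine ⟨?_, hz V hV⟩
      rw [← hjj]
      exact hV.1
    refine ((hLfin x).eq_of_subset_of_encard_le hsub ?_).symm
    rw [hLcard, hLcard, hjj]
  let V : X → Set X := fun x => ⋂₀ L x ∩ OO w (t w j x)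
  have hVo : ∀ x, IsOpen (V x) := fun x =>
    ((hLfin x).isOpen_sInter fun V hV => (h𝒱 _ V hV.1).1).inter (hOO _)
  have hVx : ∀ x, x ∈ V x := by
    intro x
    refine ⟨fun V hV => hV.2, ?_⟩
    intro i hi
    rw [t_length] at hi
    rw [t_getD w j x i (by omega)]
  -- the finite covers of the fibres
  have hF : ∀ y, ∃ F : Finset X, (∀ x ∈ F, x ∈ f ⁻¹' {y}) ∧ f ⁻¹' {y} ⊆ ⋃ x ∈ F, V x := fun y =>
    (hk y).elim_nhds_subcover V fun x _ => (hVo x).mem_nhds (hVx x)
  choose F hF1 hF2 using hF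
  let s : Y → Finset (List ℕ) := fun y => (F y).image (t w j)
  have hsne : ∀ y, (s y).Nonempty := by
    intro y
    obtain ⟨x, hx⟩ := hs y
    obtain ⟨z, hz, -⟩ := mem_iUnion₂.1 (hF2 y (show x ∈ f ⁻¹' {y} from hx))
    exact ⟨_, Finset.mem_image_of_mem _ hz⟩
  have ha : ∀ c : Finset (List ℕ), c.Nonempty → ∃ a ∈ c, ∀ b ∈ c, g a ≤ g b := fun c hc =>
    Finset.exists_min_image c g hc
  choose! a ha1 ha2 using ha
  have hx : ∀ y, ∃ x ∈ F y, t w j x = a (s y) := fun y =>
    Finset.mem_image.1 (ha1 (s y) (hsne y))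
  choose x hx1 hx2 using hx
  -- the labelling is locally finite on the sets where `s` is constant
  have main : ∀ c : Finset (List ℕ), ∃ 𝒲 : ℕ → Set (Set Y),
      (∀ n, ∀ W ∈ 𝒲 n, IsOpen W ∧ ∃ U ∈ 𝒰, W ⊆ U) ∧
      ∀ y ∈ {y | s y = c}, ∃ n, {W ∈ 𝒲 n | y ∈ W}.Nonempty ∧ {W ∈ 𝒲 n | y ∈ W}.Finite := by
    intro c
    refine locally_finite_partition 𝒰 h𝒰 {y | s y = c} (fun y => L (x y)) ?_ ?_
    · intro y hy
      refine ⟨(f '' (⋃ z ∈ F y, V z)ᶜ)ᶜ, ?_, ?_, ?_⟩
      · exact (hc _ (isOpen_biUnion fun z _ => hVo z).isClosed_compl).isOpen_compl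
      · rintro ⟨z, hz, hzy⟩
        exact hz (hF2 y hzy)
      · refine ((F y).finite_toSet.image L).subset ?_
        rintro _ ⟨y', ⟨hy'1, hy'2⟩, rfl⟩
        have h1 : f (x y') = y' := hF1 y' _ (hx1 y')
        have h2 : x y' ∈ ⋃ z ∈ F y, V z := by
          by_contra h
          exact hy'1 ⟨x y', h, h1⟩
        obtain ⟨z, hz, hz2⟩ := mem_iUnion₂.1 h2
        have h3 : t w j (x y') = a c := by rw [hx2, show s y' = c from hy'2]
        have hsy : s y = c := hy
        have h4 : g (a c) ≤ g (t w j z) := by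
          rw [← hsy]
          exact ha2 (s y) (hsne y) _ (Finset.mem_image_of_mem _ hz)
        rcases key w j hj1 hj2 z (x y') hz2.2 with h5 | h5
        · exact ⟨z, hz, (hLeq z (x y') h5 hz2.1).symm⟩
        · rw [h3] at h5
          exact absurd h5 (not_lt.2 h4)
    · intro y hy
      obtain ⟨V', hV'⟩ := hLne (x y)
      obtain ⟨-, _, ⟨U, hU, rfl⟩, hVU⟩ := h𝒱 _ V' hV'.1
      refine ⟨U, hU, ?_⟩
      intro y' _ hyy
      have h1 : V' ∈ L (x y') := by rw [show L (x y') = L (x y) from hyy]; exact hV'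
      have h2 : f (x y') = y' := hF1 y' _ (hx1 y')
      rw [← h2]
      exact hVU h1.2
  choose 𝒲 h𝒲1 h𝒲2 using main
  obtain ⟨e, he⟩ := exists_surjective_nat (Finset (List ℕ) × ℕ)
  refine ⟨fun n => 𝒲 (e n).1 (e n).2, fun n => h𝒲1 _ _, ?_⟩
  intro y
  obtain ⟨n, hn⟩ := h𝒲2 (s y) y rfl
  obtain ⟨m, hm⟩ := he (s y, n)
  refine ⟨m, ?_⟩
  have h1 : (e m).1 = s y := by rw [hm]
  have h2 : (e m).2 = n := by rw [hm]
  change {W ∈ 𝒲 (e m).1 (e m).2 | y ∈ W}.Nonempty ∧ {W ∈ 𝒲 (e m).1 (e m).2 | y ∈ W}.Finite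
  rw [h1, h2]
  exact hn

end Pool.Agent.V7H73.Withdrawn.PerfectImage
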